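import Pool.Agent.H5.TT.Stm

/-! Crew TT, part PER. -/

set_option autoImplicit false

namespace Pool.Agent.H66.TT

open H5.TT

/-- `r^(-2/3) a^(5/3) = r (a/r)^(5/3)` -/
theorem per_eq (a r : ℝ) (ha : 0 ≤ a) (hr : 0 < r) :
    r ^ (-(2 / 3) : ℝ) * a ^ (5 / 3 : ℝ) = r * (a / r) ^ (5 / 3 : ℝ) := by
  rw [Real.div_rpow ha hr.le]
  have h1 : r * (a ^ (5 / 3 : ℝ) / r ^ (5 / 3 : ℝ)) = (r / r ^ (5 / 3 : ℝ)) * a ^ (5 / 3 : ℝ) := by
    ring
  rw [h1]
  congr 1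
  have h2 : r / r ^ (5 / 3 : ℝ) = r ^ (1 : ℝ) / r ^ (5 / 3 : ℝ) := by rw [Real.rpow_one]
  rw [h2, ← Real.rpow_sub hr]
  norm_num

theorem t_PER : S_PER := by
  intro a b r s t ha hb hr hs ht0 ht1
  have h1t : 0 ≤ 1 - t := by linarith
  have hR : 0 < (1 - t) * r + t * s := by
    rcases eq_or_lt_of_le ht0 with h | h
    · rw [← h]; simpa using hr
    · have : 0 < t * s := mul_pos h hs
      have : 0 ≤ (1 - t) * r := mul_nonneg h1t hr.le
      linarith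
  have hA : 0 ≤ (1 - t) * a + t * b := add_nonneg (mul_nonneg h1t ha) (mul_nonneg ht0 hb)
  rw [per_eq _ _ hA hR, per_eq _ _ ha hr, per_eq _ _ hb hs]
  set Q := (1 - t) * r + t * s with hQ
  have hconv := (convexOn_rpow (by norm_num : (1 : ℝ) ≤ 5 / 3)).2
    (show a / r ∈ Set.Ici (0 : ℝ) from div_nonneg ha hr.le)
    (show b / s ∈ Set.Ici (0 : ℝ) from div_nonneg hb hs.le)
    (show 0 ≤ (1 - t) * r / Q from div_nonneg (mul_nonneg h1t hr.le) hR.le)
    (show 0 ≤ t * s / Q from div_nonneg (mul_nonneg ht0 hs.le) hR.le)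
    (by rw [← add_div]; exact div_self hR.ne')
  simp only [smul_eq_mul] at hconv
  have e1 : (1 - t) * r / Q * (a / r) + t * s / Q * (b / s) = ((1 - t) * a + t * b) / Q := by
    field_simp
  rw [e1] at hconv
  have h3 := mul_le_mul_of_nonneg_left hconv hR.le
  refine le_trans h3 (le_of_eq ?_)
  field_simp

end Pool.Agent.H66.TT
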